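import Pool.Agent.Helper93.KS.St
import Pool.Agent.Helper93.KP.M_RTS

/-!
# Project KS (MP_77e955_nt): module EXB
-/

set_option autoImplicit false

noncomputable section

namespace Pool.Agent.Helper31.KS

open Finset Filter Topology Pool.Agent.Helper93.KS
open Pool.Agent.Helper15.AB (ee Kl StDB StMT)
open Pool.Agent.Helper9.TW (gm Qs fm StMER StC9)
open Pool.Agent.Helper18.TR (StLevel)
open Pool.Agent.Helper93.KP (gk vk tk rn gn TK qk StC8P StVLP StRTS StWEI)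

private lemma gk_iff (n r p : ℕ) : (p : ℤ) ∣ gk n (30 * r) ↔
    30 * (r : ZMod p) * n - (30 * (r : ZMod p)) ^ 2 - 1 = 0 := by
  rw [← ZMod.intCast_zmod_eq_zero_iff_dvd]
  unfold gk
  push_cast
  exact Iff.rfl

private lemma rn_ne_one (n p : ℕ) (hp : p.Prime) (h7 : 7 ≤ p) (hd : ¬ (p : ℤ) ∣ (n : ℤ) ^ 2 - 4) :
    rn n p ≠ 1 := by
  intro h1
  haveI : Fact p.Prime := ⟨hp⟩
  have h30 : (30 : ZMod p) ≠ 0 := by
    intro h
    have h' : ((30 : ℕ) : ZMod p) = 0 := by exact_mod_cast h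
    rw [ZMod.natCast_eq_zero_iff] at h'
    have h2 : p ∣ 2 * (3 * 5) := by simpa using h'
    rcases (Nat.Prime.dvd_mul hp).1 h2 with h3 | h3
    · have := Nat.le_of_dvd (by norm_num) h3
      omega
    · rcases (Nat.Prime.dvd_mul hp).1 h3 with h4 | h4
      · have := Nat.le_of_dvd (by norm_num) h4
        omega
      · have := Nat.le_of_dvd (by norm_num) h4
        omega
  unfold rn at h1
  obtain ⟨r, hr⟩ := Finset.card_eq_one.1 h1
  have hrm : r ∈ (range p).filter (fun r : ℕ => (p : ℤ) ∣ gk n (30 * r)) := by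
    rw [hr]; exact Finset.mem_singleton_self r
  rw [Finset.mem_filter, gk_iff] at hrm
  set x : ZMod p := 30 * (r : ZMod p) with hx
  set y : ZMod p := (n - x) * (30 : ZMod p)⁻¹ with hy
  have h30y : 30 * y = n - x := by
    rw [hy]
    field_simp
  have hys : ((y.val : ℕ) : ZMod p) = y := ZMod.natCast_zmod_val y
  have hs : y.val ∈ (range p).filter (fun r : ℕ => (p : ℤ) ∣ gk n (30 * r)) := by
    rw [Finset.mem_filter, gk_iff, Finset.mem_range]
    refine ⟨ZMod.val_lt y, ?_⟩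
    rw [hys, h30y]
    linear_combination hrm.2
  rw [hr, Finset.mem_singleton] at hs
  have e1 : (r : ZMod p) = y := by rw [← hs]; exact hys
  have e2 : x = n - x := by rw [← h30y, ← e1]
  apply hd
  rw [← ZMod.intCast_zmod_eq_zero_iff_dvd]
  push_cast
  have e3 : (n : ZMod p) = 2 * x := by linear_combination -e2
  have h2 := hrm.2
  rw [e3] at h2 ⊢
  linear_combination 4 * h2

private lemma sx_sq (n p : ℕ) (hp : p.Prime) (h7 : 7 ≤ p) : sx n p ^ 2 = 1 := by
  unfold sx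
  split_ifs with h
  · norm_num
  · have h1 := Pool.Agent.Helper93.KP.hRTS n p hp h7
    have h2 := rn_ne_one n p hp h7 h
    have h3 : rn n p = 0 ∨ rn n p = 2 := by omega
    rcases h3 with h3 | h3
    · rw [h3]; norm_num
    · rw [h3]; norm_num

theorem hEXB (hE : StESY) (hS : StSEC) : StEXB := by
  intro m η hm hη
  obtain ⟨c, P₀, hc, hP₀, hE'⟩ := hE m η hm hη
  obtain ⟨C, hC, hS'⟩ := hS m hm
  refine ⟨C / c ^ 2, P₀, by positivity, hP₀, ?_⟩
  intro N P P₂ S hN hP hPP hSp hsum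
  have h7 : 7 ≤ P := hP₀.trans hP
  have hsec := hS' N P P₂ S hN h7 hPP hSp
  set A := (Ioc N (2 * N)).filter (fun n => η ≤ |∑ p ∈ S, sx n p / p|) with hA
  have h1 : ∀ n ∈ A, c ^ 2 ≤ (∑ T ∈ S.powersetCard m, ∏ p ∈ T, sx n p / p) ^ 2 := by
    intro n hn
    rw [hA, Finset.mem_filter] at hn
    have h2 := hE' P S (fun p => sx n p) hP (fun p hp => by
      obtain ⟨hpp, hpP, -⟩ := hSp p hp
      refine ⟨hpP, sx_sq n p hpp ?_⟩
      have : (7 : ℝ) ≤ p := h7.trans hpP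
      exact_mod_cast this) hsum hn.2
    rw [← sq_abs (∑ T ∈ S.powersetCard m, ∏ p ∈ T, sx n p / p)]
    exact pow_le_pow_left₀ hc.le h2 2
  have h2 : (A.card : ℝ) * c ^ 2 ≤ ∑ n ∈ Ioc N (2 * N), (∑ T ∈ S.powersetCard m, ∏ p ∈ T, sx n p / p) ^ 2 := by
    calc (A.card : ℝ) * c ^ 2 = ∑ _n ∈ A, c ^ 2 := by rw [Finset.sum_const, nsmul_eq_mul]
      _ ≤ ∑ n ∈ A, (∑ T ∈ S.powersetCard m, ∏ p ∈ T, sx n p / p) ^ 2 := Finset.sum_le_sum h1
      _ ≤ _ := Finset.sum_le_sum_of_subset_of_nonneg (Finset.filter_subset _ _)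
          (fun _ _ _ => sq_nonneg _)
  have hc2 : 0 < c ^ 2 := by positivity
  have h3 : (A.card : ℝ) ≤ (C * (1 + Real.log P₂) * (N * P ^ (-(m : ℝ)) + P₂ ^ m)) / c ^ 2 := by
    rw [le_div_iff₀ hc2]
    exact h2.trans hsec
  refine h3.trans (le_of_eq ?_)
  field_simp

end Pool.Agent.Helper31.KS
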